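import Mathlib
import Pool.Agent.R499.Domb

/-!
# Integrality and parity of the normalised sums `a_m` (Q2)

The proof uses the closed form
`a_m = ∑_{k=1}^{m-1} C(m-1,k) C(m-2,k-1) Cat_k C(2(m-1-k), m-1-k)`.
-/

namespace Pool.Agent.Results.MP_4af00a_nt.IntegralityAndParity

open Finset

/-- `s_n = ∑_{k=0}^{n} C(n,k)^2 C(2k,k) C(2(n-k),n-k)`. -/
def s (n : ℕ) : ℕ :=
  ∑ k ∈ range (n + 1), (n.choose k) ^ 2 * (2 * k).choose k * (2 * (n - k)).choose (n - k)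

/-- `a_m = (1 / (2 m^3 (m-1))) ∑_{n=0}^{m-1} (3n^2+n) 16^{m-1-n} s_n`. -/
def a (m : ℕ) : ℚ :=
  1 / (2 * (m : ℚ) ^ 3 * ((m : ℚ) - 1))
    * ∑ n ∈ range m, (3 * (n : ℚ) ^ 2 + n) * 16 ^ (m - 1 - n) * (s n : ℚ)

/-- For every `m > 1` the number `a_m` is an integer, and it is odd if and only if `m` is a power
of two. -/
theorem result (m : ℕ) (hm : 1 < m) :
    ∃ z : ℤ, a m = z ∧ (Odd z ↔ ∃ k : ℕ, m = 2 ^ k) := by
  obtain ⟨M, rfl⟩ : ∃ M, m = M + 2 := ⟨m - 2, by omega⟩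
  refine ⟨(Pool.Agent.R499.Domb.Z M : ℤ), ?_, ?_⟩
  · have hs : ∀ n, (s n : ℚ) = Pool.Agent.R499.Domb.s n := by
      intro n
      unfold s Pool.Agent.R499.Domb.s
      rw [← Finset.Nat.sum_antidiagonal_swap, Finset.Nat.sum_antidiagonal_eq_sum_range_succ_mk]
      push_cast
      apply sum_congr rfl
      intro k hk
      rw [mem_range] at hk
      simp only [Prod.swap_prod_mk]
      unfold Pool.Agent.R499.Domb.t Pool.Agent.R499.Domb.c
      rw [show k + (n - k) = n by omega]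
      rfl
    have h := Pool.Agent.R499.Domb.V_eq_Z M
    unfold Pool.Agent.R499.Domb.V at h
    unfold a
    have h2 : ∑ n ∈ range (M + 2), (3 * (n : ℚ) ^ 2 + n) * 16 ^ (M + 2 - 1 - n) * (s n : ℚ)
        = 2 * ((M : ℚ) + 2) ^ 3 * (M + 1) * (Pool.Agent.R499.Domb.Z M : ℚ) := by
      rw [← h]
      apply sum_congr rfl
      intro n _
      rw [hs]
    rw [h2]
    push_cast
    have h3 : ((M : ℚ) + 2) ≠ 0 := by positivity
    have h4 : ((M : ℚ) + 2 - 1) = M + 1 := by ring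
    have h5 : ((M : ℚ) + 1) ≠ 0 := by positivity
    rw [h4]
    field_simp
  · have h1 : Odd ((Pool.Agent.R499.Domb.Z M : ℕ) : ℤ) ↔ Odd (Pool.Agent.R499.Domb.Z M) := by
      exact_mod_cast Iff.rfl
    have h2 : Odd (Pool.Agent.R499.Domb.Z M) ↔ Odd (catalan (M + 1)) := by
      rw [← ZMod.natCast_eq_one_iff_odd, ← ZMod.natCast_eq_one_iff_odd,
        Pool.Agent.R499.Domb.Z_mod_two]
    exact h1.trans (h2.trans (Pool.Agent.R499.Domb.odd_catalan (M + 1)))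

end Pool.Agent.Results.MP_4af00a_nt.IntegralityAndParity
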